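import Pool.Agent.L7h73.AC.Span
import Pool.Agent.L7h93.AC.Closure

/-!
# Algebraically closed associative algebras exist

`result`: there are a field `P` and a nonzero associative `P`-algebra `R` such that every equation
over `R` in countably many unknowns has a solution in `R`.

Construction. Let `A` be a field of characteristic zero with two commuting derivations `d1`, `d2`
in which every nonconstant differential polynomial in one indeterminate has a zero
(`exists_closed`). Let `R = S A` be the ring of Hahn series `∑ a_q h^q` (`q ∈ ℚ`, well ordered
support) with the star product `a ⋆ b = ∑ₖ h^k / k! · d1^k a · d2^k b`, and let `P` be the field of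
Hahn series with coefficients in the field of constants of `A`; `P` is central in `R`. Newton's
method (with the leading coefficients `Φ ∈ A{u}` of `f (x + h^γ u)`) and the spherical completeness
of `R` show that every nonconstant `f ∈ R * P[x]` has a zero (`closed_one`); that the relevant
coefficients are nonconstant follows from the absence of generalized polynomial identities
(`no_gpi`). The reduction of countably many unknowns to one unknown is the starting result
`OneVariable`.
-/

set_option autoImplicit false

namespace Pool.Agent.Results.MP_4b1745_al.Existence

open Pool.Agent.Results.MP_4b1745_al.OneVariable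

/-- **Algebraically closed associative algebras exist.**  There are a field `P` and a nonzero
associative `P`-algebra `R` such that every equation `f = 0` over `R` in countably many unknowns
(`f ∈ R * P⟨x_0, x_1, …⟩`, `f ∉ R`) has a solution in `R`. -/
theorem result : ∃ (P R : Type) (_ : Field P) (_ : Ring R) (_ : Algebra P R),
    Nontrivial R ∧ AlgClosedIn P R ℕ := by
  obtain ⟨A, _, _, _, hA⟩ := Pool.Agent.L7h73.AC.exists_closed
  exact ⟨Pool.Agent.L7h73.AC.PK A, Pool.Agent.L7h73.AC.S A, inferInstance, inferInstance,
    inferInstance, inferInstance,
    (OneVariable.result _ _).mpr
      ⟨Pool.Agent.L7h73.AC.not_surjective hA, Pool.Agent.L7h73.AC.closed_one hA⟩⟩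

end Pool.Agent.Results.MP_4b1745_al.Existence
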